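import Pool.Agent.H2.Om1

/-! The `ω`-values of all minimal generators of `⟨n, n+1, …, n+k⟩`. -/

namespace Pool.Agent.Results.MP_d5f0e7_al.Interval

open Pool.Agent.H2.Om

/-- the formula: with `q = ⌊(n-2)/k⌋`,
`ω(n) = q+2` if `k ∤ n-2` or `q+1 ∣ k-1`, and `q+1` otherwise; for `i ≥ 1`,
`ω(n+i) = q+3` if `k ∤ n-2` or `q+2 ∣ i-1`, and `q+2` otherwise -/
def F (n k i : ℕ) : ℕ :=
  if i = 0 then
    (if ¬ k ∣ n - 2 ∨ (n - 2) / k + 1 ∣ k - 1 then (n - 2) / k + 2 else (n - 2) / k + 1)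
  else
    (if ¬ k ∣ n - 2 ∨ (n - 2) / k + 2 ∣ i - 1 then (n - 2) / k + 3 else (n - 2) / k + 2)

variable {n k : ℕ}

lemma mem_iff (y : ℕ) : y ∈ AddSubmonoid.closure (Set.Icc n (n + k)) ↔
    ∃ j, j * n ≤ y ∧ y ≤ j * (n + k) := by
  constructor
  · intro h
    induction h using AddSubmonoid.closure_induction with
    | mem a ha => exact ⟨1, by simpa using ha.1, by simpa using ha.2⟩
    | zero => exact ⟨0, by simp, by simp⟩
    | add a b _ _ ha hb =>
      obtain ⟨j, h1, h2⟩ := ha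
      obtain ⟨j', h3, h4⟩ := hb
      exact ⟨j + j', by linarith, by linarith⟩
  · rintro ⟨j, h1, h2⟩
    induction j generalizing y with
    | zero => rw [show y = 0 by omega]; exact zero_mem _
    | succ j ih =>
      by_cases h : y ≤ j * (n + k) + n
      · obtain ⟨z, rfl⟩ : ∃ z, y = z + n := ⟨y - n, by rw [Nat.succ_mul] at h1; omega⟩
        exact add_mem (ih z (by linarith) (by linarith))
          (AddSubmonoid.subset_closure ⟨le_rfl, by omega⟩)
      · obtain ⟨z, rfl⟩ : ∃ z, y = j * (n + k) + z := ⟨y - j * (n + k), by omega⟩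
        exact add_mem (ih _ (by nlinarith) le_rfl)
          (AddSubmonoid.subset_closure ⟨by omega, by linarith⟩)

lemma dv_of {x y : ℕ} (j : ℕ) (h1 : x + j * n ≤ y) (h2 : y ≤ x + j * (n + k)) :
    Dv (AddSubmonoid.closure (Set.Icc n (n + k))) x y :=
  ⟨y - x, (mem_iff _).mpr ⟨j, by omega, by omega⟩, by omega⟩

lemma not_dv {x y : ℕ} (j : ℕ) (h1 : x + j * (n + k) < y) (h2 : y < x + (j + 1) * n) :
    ¬ Dv (AddSubmonoid.closure (Set.Icc n (n + k))) x y := by
  rintro ⟨g, hg, rfl⟩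
  obtain ⟨l, h3, h4⟩ := (mem_iff _).mp hg
  rcases le_or_gt l j with h | h
  · have := Nat.mul_le_mul_right (n + k) h
    omega
  · have := Nat.mul_le_mul_right n (Nat.succ_le_of_lt h)
    simp only [Nat.succ_eq_add_one] at this
    omega

lemma sum_bounds (s : Multiset ℕ) (hs : ∀ a ∈ s, a ∈ Set.Icc n (n + k)) :
    s.card * n ≤ s.sum ∧ s.sum ≤ s.card * (n + k) :=
  ⟨by simpa using Multiset.card_nsmul_le_sum fun a ha => (hs a ha).1,
    by simpa using Multiset.sum_le_card_nsmul _ _ fun a ha => (hs a ha).2⟩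

/-- structure of a bullet of length `p + 3` -/
lemma bullet_cases {i : ℕ} (hik : i ≤ k) (hkn : k < n) {s : Multiset ℕ} {p : ℕ}
    (hb : Bullet (Set.Icc n (n + k)) (n + i) s) (hc : s.card = p + 3) (a : ℕ) (ha : a ∈ s) :
    ∃ R, s.sum = R + a ∧ (p + 2) * n ≤ R ∧
      ((n + i + p * (n + k) < R ∧ R < n + i + (p + 1) * n) ∨
       (n + i + (p + 1) * (n + k) < R ∧ R < n + i + (p + 2) * n)) := by
  obtain ⟨s', rfl⟩ := Multiset.exists_cons_of_mem ha
  have hc' : s'.card = p + 2 := by simpa using hc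
  have hb' := sum_bounds s' fun b hb' => hb.1 b (Multiset.mem_cons_of_mem hb')
  rw [hc'] at hb'
  have e : (a ::ₘ s').sum = s'.sum + a := by rw [Multiset.sum_cons, add_comm]
  have hn := hb.2.2 a ha _ e
  refine ⟨s'.sum, e, hb'.1, ?_⟩
  by_cases h : s'.sum < n + i + (p + 1) * n
  · left
    refine ⟨?_, h⟩
    by_contra h'
    exact hn (dv_of p (by nlinarith) (not_lt.mp h'))
  · right
    constructor
    · by_contra h'
      exact hn (dv_of (p + 1) (not_lt.mp h) (not_lt.mp h'))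
    · by_contra h'
      exact hn (dv_of (p + 2) (not_lt.mp h') (by linarith))

lemma all_eq {s : Multiset ℕ} {R m : ℕ} (hc : s.card = m + 1) (h : ∀ a ∈ s, s.sum = R + a) :
    ∃ a ∈ s, R = m * a := by
  obtain ⟨a, ha⟩ := Multiset.card_pos_iff_exists_mem.mp (show 0 < s.card by omega)
  have : s = Multiset.replicate (m + 1) a :=
    Multiset.eq_replicate.mpr ⟨hc, fun b hb => by have := h a ha; have := h b hb; omega⟩
  refine ⟨a, ha, ?_⟩
  have h1 := h a ha
  rw [this, Multiset.sum_replicate, smul_eq_mul, Nat.succ_mul] at h1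
  omega

lemma upper {i : ℕ} (hn : 2 ≤ n) (hk : 1 ≤ k) (hik : i ≤ k) (hkn : k < n) (s : Multiset ℕ)
    (hb : Bullet (Set.Icc n (n + k)) (n + i) s) : s.card ≤ F n k i := by
  obtain ⟨t, rfl⟩ : ∃ t, n = t + 2 := ⟨n - 2, by omega⟩
  have hq : ∀ p, p * k ≤ t → p ≤ t / k := fun p h => (Nat.le_div_iff_mul_le hk).mpr h
  have hq' : k ∣ t → t = t / k * k := fun h => (Nat.div_mul_cancel h).symm
  simp only [F, Nat.add_sub_cancel]
  generalize t / k = q at hq hq' ⊢
  by_cases h3 : s.card < 3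
  · split_ifs with h1 h2 h2
    · omega
    · push Not at h2
      rcases q with _ | q
      · simp at h2
      · omega
    · omega
    · omega
  obtain ⟨p, hc⟩ : ∃ p, s.card = p + 3 := ⟨s.card - 3, by omega⟩
  have H := bullet_cases hik hkn hb hc
  obtain ⟨a0, ha0⟩ := Multiset.card_pos_iff_exists_mem.mp (show 0 < s.card by omega)
  rw [hc]
  have hi : ∀ R, t + 2 + i + (p + 1) * (t + 2 + k) < R → R < t + 2 + i + (p + 2) * (t + 2) →
      p + 1 ≤ q := fun R h1 h2 => hq _ (by nlinarith)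
  have lo : ∀ R, t + 2 + i + p * (t + 2 + k) < R → R < t + 2 + i + (p + 1) * (t + 2) →
      p ≤ q := fun R h1 h2 => hq _ (by nlinarith)
  split_ifs with h1 h2 h2
  · subst h1
    obtain ⟨R, -, g1, ⟨-, g2⟩ | ⟨g2, g3⟩⟩ := H a0 ha0
    · nlinarith
    · have := hi R g2 g3; omega
  · subst h1
    push Not at h2
    have ht := hq' h2.1
    have hp : p + 1 ≤ q := by
      obtain ⟨R, -, g1, ⟨-, g2⟩ | ⟨g2, g3⟩⟩ := H a0 ha0
      · nlinarith
      · exact hi R g2 g3
    by_contra hc'
    obtain rfl : q = p + 1 := by omega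
    obtain ⟨a, ha, e⟩ := all_eq (R := (p + 3) * (t + 2) - 1) hc fun a ha => by
      obtain ⟨R, e, g1, ⟨-, g2⟩ | ⟨g2, g3⟩⟩ := H a ha
      · nlinarith
      · rw [e]; congr 1
        have : R + 1 = (p + 3) * (t + 2) := by nlinarith
        omega
    obtain ⟨d, hd⟩ := Nat.exists_eq_add_of_le (hb.1 a ha).2
    have e' : (p + 2) * a + 1 = (p + 3) * (t + 2) := by
      have : 0 < (p + 3) * (t + 2) := by positivity
      omega
    refine h2.2 ⟨d, ?_⟩
    have : k = (p + 1 + 1) * d + 1 := by nlinarith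
    omega
  · obtain ⟨R, -, -, ⟨g2, g3⟩ | ⟨g2, g3⟩⟩ := H a0 ha0
    · have := lo R g2 g3; omega
    · have := hi R g2 g3; omega
  · push Not at h2
    have ht := hq' h2.1
    by_contra hc'
    have hp : p ≤ q := by
      obtain ⟨R, -, -, ⟨g2, g3⟩ | ⟨g2, g3⟩⟩ := H a0 ha0
      · exact lo R g2 g3
      · have := hi R g2 g3; omega
    obtain rfl : q = p := by omega
    obtain ⟨i, rfl⟩ := Nat.exists_eq_succ_of_ne_zero h1
    obtain ⟨a, ha, e⟩ := all_eq (R := (q + 2) * (t + 2) + i) hc fun a ha => by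
      obtain ⟨R, e, g1, ⟨g2, g3⟩ | ⟨g2, g3⟩⟩ := H a ha
      · rw [e]; congr 1
        simp only [Nat.succ_eq_add_one] at g2 g3
        nlinarith
      · have := hi R g2 g3; omega
    obtain ⟨d, rfl⟩ := Nat.exists_eq_add_of_le (hb.1 a ha).1
    exact h2.2 ⟨d, by simp only [Nat.succ_sub_one]; linarith⟩

/-- a two-valued bullet -/
lemma bullet_two {x a b j l : ℕ} (ha : a ∈ Set.Icc n (n + k)) (hb : 0 < j → b ∈ Set.Icc n (n + k))
    (h1 : Dv (AddSubmonoid.closure (Set.Icc n (n + k))) x (j * b + (l + 1) * a))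
    (h2 : ¬ Dv (AddSubmonoid.closure (Set.Icc n (n + k))) x (j * b + l * a))
    (h3 : ∀ j', j = j' + 1 →
      ¬ Dv (AddSubmonoid.closure (Set.Icc n (n + k))) x (j' * b + (l + 1) * a)) :
    ∃ s, Bullet (Set.Icc n (n + k)) x s ∧ s.card = j + l + 1 := by
  refine ⟨Multiset.replicate j b + Multiset.replicate (l + 1) a, ⟨?_, by
    simpa only [Multiset.sum_add, Multiset.sum_replicate, smul_eq_mul] using h1, ?_⟩,
    by rw [Multiset.card_add, Multiset.card_replicate, Multiset.card_replicate, add_assoc]⟩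
  · intro c hc
    simp only [Multiset.mem_add, Multiset.mem_replicate] at hc
    rcases hc with ⟨h, rfl⟩ | ⟨-, rfl⟩
    exacts [hb (Nat.pos_of_ne_zero h), ha]
  · intro c hc R hR
    simp only [Multiset.mem_add, Multiset.mem_replicate] at hc
    simp only [Multiset.sum_add, Multiset.sum_replicate, smul_eq_mul] at hR
    rcases hc with ⟨h, rfl⟩ | ⟨-, rfl⟩
    · obtain ⟨j', rfl⟩ := Nat.exists_eq_succ_of_ne_zero h
      rw [show R = j' * c + (l + 1) * a by rw [Nat.succ_mul] at hR; omega]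
      exact h3 j' rfl
    · rw [show R = j * b + l * c by rw [add_mul, one_mul] at hR; omega]
      exact h2

lemma lower {i : ℕ} (hn : 2 ≤ n) (hk : 1 ≤ k) (hik : i ≤ k) (hkn : k < n) :
    ∃ s, Bullet (Set.Icc n (n + k)) (n + i) s ∧ s.card = F n k i := by
  obtain ⟨t, rfl⟩ : ∃ t, n = t + 2 := ⟨n - 2, by omega⟩
  have q1 : t / k * k ≤ t := Nat.div_mul_le_self t k
  have q2 : t < (t / k + 1) * k := by
    have := Nat.lt_div_mul_add (a := t) hk
    linarith
  have q3 : ¬ k ∣ t → t / k * k < t := fun h => lt_of_le_of_ne q1 fun e => h ⟨t / k, by linarith⟩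
  have q4 : k ∣ t → t = t / k * k := fun h => (Nat.div_mul_cancel h).symm
  simp only [F, Nat.add_sub_cancel]
  generalize t / k = q at q1 q2 q3 q4 ⊢
  split_ifs with h1 h2 h2
  · subst h1
    obtain ⟨k, rfl⟩ : ∃ k', k = k' + 1 := ⟨k - 1, by omega⟩
    simp only [Nat.add_sub_cancel] at h2
    have d1 := Nat.div_add_mod k (q + 1)
    have d2 := Nat.mod_lt k (show 0 < q + 1 by omega)
    have d3 : k % (q + 1) ≠ 0 → q * (k + 1) < t := fun h =>
      q3 (h2.resolve_right fun h' => h (Nat.mod_eq_zero_of_dvd h'))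
    generalize k / (q + 1) = c at d1
    generalize k % (q + 1) = j at d1 d2 d3
    obtain ⟨l, rfl⟩ : ∃ l, q = j + l := ⟨q - j, by omega⟩
    have hck : c + j ≤ k := by nlinarith
    obtain ⟨b, hb⟩ : ∃ b, b + c = t + 2 + k := ⟨t + 2 + k - c, by omega⟩
    obtain ⟨s, hs, hc⟩ := bullet_two (n := t + 2) (k := k + 1) (x := t + 2 + 0) (a := b + 1)
      (b := b) (j := j) (l := l + 1) ⟨by omega, by omega⟩ (fun h => ⟨by omega, by omega⟩)
      (by
        rcases c with _ | c
        · exact dv_of (j + l + 2) (by nlinarith) (by nlinarith)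
        · exact dv_of (j + l + 1) (by nlinarith) (by nlinarith))
      (not_dv (j + l) (by nlinarith) (by nlinarith))
      (by
        rintro j rfl
        have := d3 (by omega)
        exact not_dv (j + 1 + l) (by nlinarith) (by nlinarith))
    exact ⟨s, hs, by omega⟩
  · subst h1
    push Not at h2
    have ht := q4 h2.1
    rcases q with _ | q
    · simp at h2
    have hk2 : 2 ≤ k := by
      by_contra h
      obtain rfl : k = 1 := by omega
      simp at h2
    obtain ⟨s, hs, hc⟩ := bullet_two (n := t + 2) (k := k) (x := t + 2 + 0) (a := t + 2 + k)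
      (b := 0) (j := 0) (l := q + 1) ⟨by omega, by omega⟩ (fun h => absurd h (by simp))
      (dv_of (q + 2) (by nlinarith) (by nlinarith))
      (not_dv q (by nlinarith) (by nlinarith)) (by simp)
    exact ⟨s, hs, by omega⟩
  · obtain ⟨i, rfl⟩ : ∃ i', i = i' + 1 := ⟨i - 1, by omega⟩
    simp only [Nat.add_sub_cancel] at h2
    have d1 := Nat.div_add_mod i (q + 2)
    have d2 := Nat.mod_lt i (show 0 < q + 2 by omega)
    have d3 : i % (q + 2) ≠ 0 → q * k < t := fun h =>
      q3 (h2.resolve_right fun h' => h (Nat.mod_eq_zero_of_dvd h'))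
    generalize i / (q + 2) = c at d1
    generalize i % (q + 2) = j at d1 d2 d3
    obtain ⟨l, hl⟩ : ∃ l, q + 1 = j + l := ⟨q + 1 - j, by omega⟩
    have hck : c + j ≤ i := by nlinarith
    have e : j * (t + 2 + c + 1) + (l + 1) * (t + 2 + c) = (q + 2) * (t + 2) + i := by
      have : q + 2 = j + l + 1 := by omega
      rw [this] at d1 ⊢
      nlinarith
    obtain ⟨s, hs, hc⟩ := bullet_two (n := t + 2) (k := k) (x := t + 2 + (i + 1))
      (a := t + 2 + c) (b := t + 2 + c + 1) (j := j) (l := l + 1) ⟨by omega, by omega⟩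
      (fun h => ⟨by omega, by omega⟩)
      (by
        rcases c with _ | c
        · exact dv_of (q + 1) (by nlinarith) (by nlinarith)
        · exact dv_of (q + 2) (by nlinarith) (by nlinarith))
      (not_dv q (by nlinarith) (by nlinarith))
      (by
        rintro j rfl
        have := d3 (by omega)
        exact not_dv q (by nlinarith) (by nlinarith))
    exact ⟨s, hs, by omega⟩
  · push Not at h2
    have ht := q4 h2.1
    have hi2 : 2 ≤ i := by
      by_contra h
      obtain rfl : i = 1 := by omega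
      simp at h2
    rcases q with _ | q
    · omega
    obtain ⟨s, hs, hc⟩ := bullet_two (n := t + 2) (k := k) (x := t + 2 + i) (a := t + 2)
      (b := 0) (j := 0) (l := q + 2) ⟨by omega, by omega⟩ (fun h => absurd h (by simp))
      (dv_of (q + 1) (by nlinarith) (by nlinarith))
      (not_dv q (by nlinarith) (by nlinarith)) (by simp)
    exact ⟨s, hs, by omega⟩

/-- For `n ≥ 2`, `1 ≤ k ≤ n-1`, `0 ≤ i ≤ k`, the `ω`-value of `n + i` in `⟨n, …, n+k⟩` is
`F n k i`. -/
theorem result (n k i : ℕ) (hn : 2 ≤ n) (hk : 1 ≤ k) (hkn : k ≤ n - 1) (hik : i ≤ k) :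
    IsLeast {m | OmP (AddSubmonoid.closure (Set.Icc n (n + k))) (n + i) m} (F n k i) := by
  refine ⟨(omP_iff _ _ _).mpr (upper hn hk hik (by omega)), fun m hm => ?_⟩
  obtain ⟨s, hs, hc⟩ := lower hn hk hik (show k < n by omega)
  exact hc ▸ (omP_iff _ _ _).mp hm s hs

end Pool.Agent.Results.MP_d5f0e7_al.Interval
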